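import Pool.Agent.Work.MP_50f8f6_al_helper22.E2

/-!
# Block S1.B2: guessed geodesics of adjacent vertices are bounded
-/

namespace FrobP
open GMet

namespace S1
variable {V ι : Type} [GMet V] {C : ConeData V ι}

theorem InArch.symm' {i : ι} {v w : Cone C} {k : ℕ} (h : InArch C i v w k) :
    InArch C i w v k := by
  obtain ⟨h1, h2, h3⟩ := h
  refine ⟨h1, h2, ?_⟩
  rw [GMet.symm (av C i w)]
  tauto

theorem Vis.symm' {v w : Cone C} {z : V} (h : Vis C v w z) : Vis C w v z := by
  refine ⟨h.1.symm', fun i hi => ?_⟩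
  have := h.2 i hi.symm'
  unfold VisI at *
  tauto

theorem LL_symm {v w z : Cone C} (h : z ∈ LL C v w) : z ∈ LL C w v := by
  rcases h with ⟨a, h1, h2⟩ | ⟨i, k, h1, h2, h3⟩ | ⟨i, k, h1, h2, h3⟩
  · exact Or.inl ⟨a, h1.symm', h2⟩
  · exact Or.inr (Or.inr ⟨i, k, h1.symm', h2, h3⟩)
  · exact Or.inr (Or.inl ⟨i, k, h1.symm', h2, h3⟩)

/-- the level vertex, unfolded -/
theorem vl_lev (i : ι) (y : V) (hy : y ∈ C.Y i) (k : ℕ) (h1 : 1 ≤ k) (h2 : k ≤ C.ρ) :
    vl C i y hy k = Cone.lev C i y k hy h1 h2 := by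
  unfold vl
  rw [dif_neg (by omega), dif_pos h2]

theorem vl_congr {i : ι} {y z : V} (h : y = z) (hy : y ∈ C.Y i) (hz : z ∈ C.Y i) (k : ℕ) :
    vl C i y hy k = vl C i z hz k := by
  subst h; rfl

theorem d_pj_le {θ : ℕ} (hF : Fam C θ) {i j : ι} (hij : i ≠ j) {x y : V} (hx : x ∈ C.Y j)
    (hy : y ∈ C.Y j) : d (pj C i x) (pj C i y) ≤ θ :=
  (le_prd (pj_spec C i x) (pj_spec C i y)).trans (hF.small i j hij x hx y hy)

theorem not_arch {θ : ℕ} (hF : Fam C θ) (hR : θ ≤ C.R) {i j : ι} (hij : i ≠ j) {v w : Cone C}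
    (hv : be C v ∈ C.Y j) (hw : be C w ∈ C.Y j) (lv0 : lv C i v = 0) (lw0 : lv C i w = 0) {k : ℕ} :
    ¬ InArch C i v w k := by
  rintro ⟨h1, h2, h3⟩
  have h4 : d (av C i v) (av C i w) ≤ θ := d_pj_le hF hij hv hw
  have h5 : 1 * C.R ≤ 2 ^ (k - 1) * C.R := Nat.mul_le_mul_right _ Nat.one_le_two_pow
  omega

/-- projection to another cone of a vertex in the cone `j` -/
theorem lv_lev_ne {i j : ι} (hij : i ≠ j) {y : V} {k : ℕ} (hy : y ∈ C.Y j) (h1 : 1 ≤ k)
    (h2 : k ≤ C.ρ) : lv C i (Cone.lev C j y k hy h1 h2) = 0 := by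
  simp [lv, Cone.lev, hij.symm]

theorem lv_lev_eq {j : ι} {y : V} {k : ℕ} (hy : y ∈ C.Y j) (h1 : 1 ≤ k)
    (h2 : k ≤ C.ρ) : lv C j (Cone.lev C j y k hy h1 h2) = k := by
  simp [lv, Cone.lev]

theorem lv_apex_ne {i j : ι} (hij : i ≠ j) : lv C i (Cone.apex C j) = 0 := by
  simp [lv, Cone.apex, hij.symm]

theorem lv_apex_eq {j : ι} : lv C j (Cone.apex C j) = C.ρ + 1 := by
  simp [lv, Cone.apex]

theorem lv_base {i : ι} {x : V} : lv C i (Cone.base C x) = 0 := rfl

theorem be_base {x : V} : be C (Cone.base C x) = x := rfl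
theorem be_lev {j : ι} {y : V} {k : ℕ} (hy : y ∈ C.Y j) (h1 : 1 ≤ k)
    (h2 : k ≤ C.ρ) : be C (Cone.lev C j y k hy h1 h2) = y := rfl
theorem be_apex {j : ι} : be C (Cone.apex C j) ∈ C.Y j := (C.hY j).choose_spec

theorem av_eq {i : ι} {v : Cone C} (h : be C v ∈ C.Y i) : av C i v = be C v := pj_of_mem C h

theorem not_vis {i : ι} {v w : Cone C} (hv : lv C i v ≠ 0) (hw : lv C i w ≠ 0) {z : V} :
    ¬ Vis C v w z := by
  rintro ⟨h1, h2⟩
  have := h2 i ⟨le_rfl, by omega, Or.inl (by omega)⟩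
  unfold VisI at this
  tauto

/-- points of the guessed geodesic for two vertices in the cone `j` (at least one not base): -/
theorem LL_cone {θ : ℕ} (hF : Fam C θ) (hR : θ ≤ C.R) {j : ι} {v w z : Cone C}
    (hv : be C v ∈ C.Y j) (hw : be C w ∈ C.Y j) (lv0 : ∀ i, i ≠ j → lv C i v = 0)
    (lw0 : ∀ i, i ≠ j → lv C i w = 0) (h : z ∈ LL C v w) :
    (∃ a, Vis C v w a ∧ z = Cone.base C a) ∨
    (∃ k, InArch C j v w k ∧ lv C j v ≤ k ∧ z = vl C j (be C v) hv k) ∨
    (∃ k, InArch C j v w k ∧ lv C j w ≤ k ∧ z = vl C j (be C w) hw k) := by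
  rcases h with h | ⟨i, k, h1, h2, h3⟩ | ⟨i, k, h1, h2, h3⟩
  · exact Or.inl h
  · right; left
    by_cases hij : i = j
    · subst hij
      exact ⟨k, h1, h2, h3.trans (vl_congr (av_eq hv) _ _ _)⟩
    · exact absurd h1 (not_arch hF hR hij hv hw (lv0 i hij) (lw0 i hij))
  · right; right
    by_cases hij : i = j
    · subst hij
      exact ⟨k, h1, h2, h3.trans (vl_congr (av_eq hw) _ _ _)⟩
    · exact absurd h1 (not_arch hF hR hij hv hw (lv0 i hij) (lw0 i hij))

theorem vl_zero (i : ι) (y : V) (hy : y ∈ C.Y i) : vl C i y hy 0 = Cone.base C y := by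
  unfold vl
  rw [dif_pos rfl]

theorem vl_top (i : ι) (y : V) (hy : y ∈ C.Y i) (k : ℕ) (hk : C.ρ < k) :
    vl C i y hy k = Cone.apex C i := by
  unfold vl
  rw [dif_neg (show ¬ k = 0 by omega), dif_neg (show ¬ k ≤ C.ρ by omega)]

theorem vl_d (C : ConeData V ι) (i : ι) (y : V) (hy : y ∈ C.Y i) (k : ℕ) :
    d (vl C i y hy k) (vl C i y hy (k + 1)) ≤ 1 := by
  by_cases h0 : k = 0
  · subst h0
    rw [vl_zero, vl_lev i y hy (0 + 1) (by omega) C.hρ]
    exact Cone.base_lev C 1 i y hy le_rfl C.hρ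
  · by_cases h1 : k ≤ C.ρ
    · rw [vl_lev i y hy k (by omega) h1]
      by_cases h2 : k + 1 ≤ C.ρ
      · rw [vl_lev i y hy (k + 1) (by omega) h2]
        exact Cone.d_le_one_of_edge (CV.Edge.up i y k)
      · rw [vl_top i y hy (k + 1) (by omega)]
        have : k = C.ρ := by omega
        subst this
        exact Cone.d_le_one_of_edge (CV.Edge.top i y)
    · rw [vl_top i y hy k (by omega), vl_top i y hy (k + 1) (by omega), d_self]
      omega

theorem vl_d0 (C : ConeData V ι) (i : ι) (y : V) (hy : y ∈ C.Y i) :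
    d (Cone.base C y) (vl C i y hy 1) ≤ 1 := by
  have := vl_d C i y hy 0
  rwa [vl_zero] at this

/-- edges of the cone-off, oriented upwards -/
inductive Up (C : ConeData V ι) : Cone C → Cone C → Prop
  | base (x y : V) : d x y ≤ C.R → Up C (Cone.base C x) (Cone.base C y)
  | up0 (i : ι) (y : V) (hy : y ∈ C.Y i) : Up C (Cone.base C y) (Cone.lev C i y 1 hy le_rfl C.hρ)
  | hor (i : ι) (y z : V) (k : ℕ) (hy : y ∈ C.Y i) (hz : z ∈ C.Y i) (h1 : 1 ≤ k) (h2 : k ≤ C.ρ) :
      d y z ≤ 2 ^ k * C.R → Up C (Cone.lev C i y k hy h1 h2) (Cone.lev C i z k hz h1 h2)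
  | up (i : ι) (y : V) (k : ℕ) (hy : y ∈ C.Y i) (h1 : 1 ≤ k) (h2 : k + 1 ≤ C.ρ) :
      Up C (Cone.lev C i y k hy h1 (by omega)) (Cone.lev C i y (k + 1) hy (by omega) h2)
  | top (i : ι) (y : V) (hy : y ∈ C.Y i) : Up C (Cone.lev C i y C.ρ hy C.hρ le_rfl) (Cone.apex C i)
  | apex (i : ι) : Up C (Cone.apex C i) (Cone.apex C i)

theorem up_of_edge {v w : Cone C} (h : CV.Edge C v.1 w.1) : Up C v w ∨ Up C w v := by
  obtain ⟨v, hv⟩ := v
  obtain ⟨w, hw⟩ := w
  cases h with
  | base x y h => exact Or.inl (Up.base x y h)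
  | up0 i y => exact Or.inl (Up.up0 i y hw.1)
  | dn0 i y => exact Or.inr (Up.up0 i y hv.1)
  | hor i y z k h => exact Or.inl (Up.hor i y z k hv.1 hw.1 hv.2.1 hv.2.2 h)
  | up i y k => exact Or.inl (Up.up i y k hv.1 hv.2.1 hw.2.2)
  | dn i y k => exact Or.inr (Up.up i y k hv.1 hw.2.1 hv.2.2)
  | top i y => exact Or.inl (Up.top i y hv.1)
  | top' i y => exact Or.inr (Up.top i y hw.1)

theorem up_refl (v : Cone C) : Up C v v := by
  obtain ⟨v, hv⟩ := v
  cases v with
  | base x => exact Up.base x x (by rw [d_self]; omega)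
  | lev i y k => exact Up.hor i y y k hv.1 hv.1 hv.2.1 hv.2.2 (by rw [d_self]; omega)
  | apex i => exact Up.apex i

theorem up_of_d {v w : Cone C} (h : d v w ≤ 1) : Up C v w ∨ Up C w v := by
  rcases Nat.eq_zero_or_pos (d v w) with h0 | hpos
  · rw [eq_of_d v w h0]
    exact Or.inl (up_refl w)
  · exact up_of_edge (Cone.edge_of_d_eq_one (by omega))

/-- both vertices base: the arch points -/
theorem base_arch {θ : ℕ} (hF : Fam C θ) (hR : 100 * θ ≤ C.R) {i : ι} {x y : V}
    (hxy : d x y ≤ C.R) {k : ℕ} (h : InArch C i (Cone.base C x) (Cone.base C y) k) :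
    k = 1 ∧ d x (pj C i x) ≤ C.R ∧ d y (pj C i y) ≤ C.R := by
  obtain ⟨h1, h2, h3⟩ := h
  rw [lv_base, lv_base] at h3
  have h4 : 2 ^ (k - 1) * C.R < d (pj C i x) (pj C i y) := by
    rcases h3 with h3 | h3 | h3
    · omega
    · omega
    · exact h3
  have hp := (pj_spec C i x).p4 hF.hyp hF.one_le (hF.qc i) (pj_spec C i y)
  have hk : k = 1 := by
    by_contra hne
    have h5 : 2 ^ 1 ≤ 2 ^ (k - 1) := Nat.pow_le_pow_right (by omega) (by omega)
    have h6 : 2 ^ 1 * C.R ≤ 2 ^ (k - 1) * C.R := Nat.mul_le_mul_right _ h5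
    have h7 := C.hR
    omega
  subst hk
  have h8 := (pj_spec C i x).p3 hF.hyp hF.one_le (hF.qc i) (pj_spec C i y) (by omega)
  have s1 := GMet.symm y (pj C i y)
  refine ⟨rfl, ?_, ?_⟩ <;> omega

theorem up_bound {θ : ℕ} (hF : Fam C θ) (hR : 100 * θ ≤ C.R) {v w z : Cone C} (h : Up C v w)
    (hz : z ∈ LL C v w) : d v z ≤ 4 := by
  cases h with
  | base x y h =>
    rcases hz with ⟨a, h1, rfl⟩ | ⟨i, k, h1, h2, rfl⟩ | ⟨i, k, h1, h2, rfl⟩
    · have h3 : Bt x a y := h1.1
      have h4 := h3.d_left_le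
      have := Cone.base_le C 1 x a (by omega)
      omega
    · obtain ⟨rfl, h3, h4⟩ := base_arch hF hR h h1
      have e1 := Cone.base_le C 1 x (pj C i x) (by omega)
      have e2 := vl_d0 C i (pj C i x) (pj_mem C i x)
      have e3 := tri (Cone.base C x) (Cone.base C (pj C i x)) (vl C i (pj C i x) (pj_mem C i x) 1)
      have e5 : d (Cone.base C x) (vl C i (pj C i x) (pj_mem C i x) 1) ≤ 2 := by omega
      exact e5.trans (by omega)
    · obtain ⟨rfl, h3, h4⟩ := base_arch hF hR h h1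
      have e0 := Cone.base_le C 1 x y (by omega)
      have e1 := Cone.base_le C 1 y (pj C i y) (by omega)
      have e2 := vl_d0 C i (pj C i y) (pj_mem C i y)
      have e3 := tri (Cone.base C y) (Cone.base C (pj C i y)) (vl C i (pj C i y) (pj_mem C i y) 1)
      have e6 := tri (Cone.base C x) (Cone.base C y) (vl C i (pj C i y) (pj_mem C i y) 1)
      have e5 : d (Cone.base C x) (vl C i (pj C i y) (pj_mem C i y) 1) ≤ 3 := by omega
      exact e5.trans (by omega)
  | up0 j y hy =>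
    have hle := Cone.base_lev C 1 j y hy le_rfl C.hρ
    have key := LL_cone hF (by omega) (j := j) (v := Cone.base C y)
      (w := Cone.lev C j y 1 hy le_rfl C.hρ) hy hy (fun i _ => lv_base)
      (fun i hij => lv_lev_ne hij _ _ _) hz
    have harch : ∀ k, InArch C j (Cone.base C y) (Cone.lev C j y 1 hy le_rfl C.hρ) k → k = 1 := by
      rintro k ⟨h1, h2, h3⟩
      rw [lv_base, lv_lev_eq] at h3
      have e : d (av C j (Cone.base C y)) (av C j (Cone.lev C j y 1 hy le_rfl C.hρ)) = 0 := by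
        exact d_self _
      rw [e] at h3
      omega
    rcases key with ⟨a, h1, rfl⟩ | ⟨k, h1, h2, rfl⟩ | ⟨k, h1, h2, rfl⟩
    · have h3 : Bt y a y := h1.1
      have h4 := h3.d_left_le
      rw [d_self] at h4
      have : y = a := eq_of_d _ _ (by omega)
      subst this
      rw [d_self]; omega
    · have := harch k h1
      subst this
      change d _ (vl C j y hy 1) ≤ 4
      rw [vl_lev j y hy 1 le_rfl C.hρ]
      exact hle.trans (by omega)
    · have := harch k h1
      subst this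
      change d _ (vl C j y hy 1) ≤ 4
      rw [vl_lev j y hy 1 le_rfl C.hρ]
      exact hle.trans (by omega)
  | hor j y a k hy ha h1 h2 h =>
    have hle := Cone.d_le_one_of_edge (C := C) (v := Cone.lev C j y k hy h1 h2)
      (w := Cone.lev C j a k ha h1 h2) (CV.Edge.hor j y a k h)
    have key := LL_cone hF (by omega) (j := j) (v := Cone.lev C j y k hy h1 h2)
      (w := Cone.lev C j a k ha h1 h2) hy ha (fun i hij => lv_lev_ne hij _ _ _)
      (fun i hij => lv_lev_ne hij _ _ _) hz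
    have harch : ∀ m, InArch C j (Cone.lev C j y k hy h1 h2) (Cone.lev C j a k ha h1 h2) m →
        m ≤ k := by
      rintro m ⟨h1', h2', h3⟩
      rw [lv_lev_eq, lv_lev_eq] at h3
      rcases h3 with h3 | h3 | h3
      · exact h3
      · exact h3
      · have e1 : av C j (Cone.lev C j y k hy h1 h2) = y := av_eq hy
        have e2 : av C j (Cone.lev C j a k ha h1 h2) = a := av_eq ha
        rw [e1, e2] at h3
        have h4 : 2 ^ (m - 1) * C.R < 2 ^ k * C.R := by omega
        have h5 : 2 ^ (m - 1) < 2 ^ k := Nat.lt_of_mul_lt_mul_right h4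
        have h6 : m - 1 < k := (Nat.pow_lt_pow_iff_right (by omega)).1 h5
        omega
    rcases key with ⟨b, h3, rfl⟩ | ⟨m, h3, h4, rfl⟩ | ⟨m, h3, h4, rfl⟩
    · exact absurd h3 (not_vis (i := j) (by rw [lv_lev_eq]; omega) (by rw [lv_lev_eq]; omega))
    · have := harch m h3
      rw [lv_lev_eq] at h4
      have : m = k := by omega
      subst this
      change d _ (vl C j y hy m) ≤ 4
      rw [vl_lev j y hy m h1 h2]
      have e : d (Cone.lev C j y m hy h1 h2) (Cone.lev C j y m hy h1 h2) = 0 := d_self _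
      exact e.le.trans (by omega)
    · have := harch m h3
      rw [lv_lev_eq] at h4
      have : m = k := by omega
      subst this
      change d _ (vl C j a ha m) ≤ 4
      rw [vl_lev j a ha m h1 h2]
      exact hle.trans (by omega)
  | up j y k hy h1 h2 =>
    have hle := Cone.d_le_one_of_edge (C := C) (v := Cone.lev C j y k hy h1 (by omega))
      (w := Cone.lev C j y (k + 1) hy (by omega) h2) (CV.Edge.up j y k)
    have key := LL_cone hF (by omega) (j := j) (v := Cone.lev C j y k hy h1 (by omega))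
      (w := Cone.lev C j y (k + 1) hy (by omega) h2) hy hy (fun i hij => lv_lev_ne hij _ _ _)
      (fun i hij => lv_lev_ne hij _ _ _) hz
    have harch : ∀ m, InArch C j (Cone.lev C j y k hy h1 (by omega))
        (Cone.lev C j y (k + 1) hy (by omega) h2) m → m ≤ k + 1 := by
      rintro m ⟨h1', h2', h3⟩
      rw [lv_lev_eq, lv_lev_eq] at h3
      have e : d (av C j (Cone.lev C j y k hy h1 (by omega)))
        (av C j (Cone.lev C j y (k + 1) hy (by omega) h2)) = 0 := d_self _
      rw [e] at h3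
      omega
    have hfin : ∀ m, k ≤ m → m ≤ k + 1 → d (Cone.lev C j y k hy h1 (by omega)) (vl C j y hy m) ≤ 4 := by
      intro m hm1 hm2
      have : m = k ∨ m = k + 1 := by omega
      rcases this with rfl | rfl
      · rw [vl_lev j y hy m h1 (by omega), d_self]; omega
      · rw [vl_lev j y hy (k + 1) (by omega) h2]
        exact hle.trans (by omega)
    rcases key with ⟨b, h3, rfl⟩ | ⟨m, h3, h4, rfl⟩ | ⟨m, h3, h4, rfl⟩
    · exact absurd h3 (not_vis (i := j) (by rw [lv_lev_eq]; omega) (by rw [lv_lev_eq]; omega))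
    · rw [lv_lev_eq] at h4
      exact hfin m h4 (harch m h3)
    · rw [lv_lev_eq] at h4
      exact hfin m (by omega) (harch m h3)
  | top j y hy =>
    have hle := Cone.d_le_one_of_edge (C := C) (v := Cone.lev C j y C.ρ hy C.hρ le_rfl)
      (w := Cone.apex C j) (CV.Edge.top j y)
    have hρ := C.hρ
    have key := LL_cone hF (by omega) (j := j) (v := Cone.lev C j y C.ρ hy C.hρ le_rfl)
      (w := Cone.apex C j) hy be_apex (fun i hij => lv_lev_ne hij _ _ _)
      (fun i hij => lv_apex_ne hij) hz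
    rcases key with ⟨b, h3, rfl⟩ | ⟨m, h3, h4, rfl⟩ | ⟨m, h3, h4, rfl⟩
    · exact absurd h3 (not_vis (i := j) (by rw [lv_lev_eq]; omega) (by rw [lv_apex_eq]; omega))
    · rw [lv_lev_eq] at h4
      have := h3.2.1
      have hm : m = C.ρ ∨ m = C.ρ + 1 := by omega
      rcases hm with rfl | rfl
      · change d _ (vl C j y hy C.ρ) ≤ 4
        rw [vl_lev j y hy C.ρ C.hρ le_rfl]
        have e : d (Cone.lev C j y C.ρ hy C.hρ le_rfl) (Cone.lev C j y C.ρ hy C.hρ le_rfl) = 0 :=
          d_self _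
        exact e.le.trans (by omega)
      · change d _ (vl C j y hy (C.ρ + 1)) ≤ 4
        rw [vl_apex]
        omega
    · rw [lv_apex_eq] at h4
      have := h3.2.1
      have hm : m = C.ρ + 1 := by omega
      subst hm
      rw [vl_apex]
      omega
  | apex j =>
    have hρ := C.hρ
    have key := LL_cone hF (by omega) (j := j) (v := Cone.apex C j)
      (w := Cone.apex C j) be_apex be_apex (fun i hij => lv_apex_ne hij)
      (fun i hij => lv_apex_ne hij) hz
    rcases key with ⟨b, h3, rfl⟩ | ⟨m, h3, h4, rfl⟩ | ⟨m, h3, h4, rfl⟩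
    · exact absurd h3 (not_vis (i := j) (by rw [lv_apex_eq]; omega) (by rw [lv_apex_eq]; omega))
    · rw [lv_apex_eq] at h4
      have := h3.2.1
      have hm : m = C.ρ + 1 := by omega
      subst hm
      rw [vl_apex, d_self]
      omega
    · rw [lv_apex_eq] at h4
      have := h3.2.1
      have hm : m = C.ρ + 1 := by omega
      subst hm
      rw [vl_apex, d_self]
      omega

end S1

/-- BLOCK S1.B2 -/
theorem s1B2 : S1.B2Stmt := by
  refine ⟨100, 5, ?_⟩
  intro V ι _ C θ hF hR v w hvw z hz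
  rcases S1.up_of_d hvw with h | h
  · have := S1.up_bound hF hR h hz
    omega
  · have h1 := S1.up_bound hF hR h (S1.LL_symm hz)
    have := tri v w z
    omega

end FrobP
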