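import Pool.Agent.Work.MP_50f8f6_al.S1Defs

/-!
# Block S1.E2: apices with a large angle are on every geodesic
-/

namespace FrobP
open GMet

namespace S1
variable {V ι : Type} [GMet V] (C : ConeData V ι)

theorem vl_apex (i : ι) (y : V) (hy : y ∈ C.Y i) : vl C i y hy (C.ρ + 1) = Cone.apex C i := by
  unfold vl
  rw [dif_neg (by omega), dif_neg (by omega)]

theorem lv_le (i : ι) (v : Cone C) : lv C i v ≤ C.ρ + 1 := by
  obtain ⟨v, hv⟩ := v
  cases v with
  | base x => simp [lv]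
  | lev j y k =>
    have := hv.2.2
    simp only [lv]
    split_ifs <;> omega
  | apex j =>
    simp only [lv]
    split_ifs <;> omega

/-- large projections: the apex belongs to the guessed geodesic -/
theorem apex_mem_LL {i : ι} {v w : Cone C} (h : 2 ^ C.ρ * C.R < d (av C i v) (av C i w)) :
    Cone.apex C i ∈ LL C v w := by
  right; left
  refine ⟨i, C.ρ + 1, ⟨by omega, le_rfl, Or.inr (Or.inr ?_)⟩, lv_le C i v, (vl_apex C i _ _).symm⟩
  rwa [Nat.add_sub_cancel]

variable {C} {θ : ℕ}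

theorem prd_be (hF : Fam C θ) {i : ι} {v : Cone C} (hv : v ≠ Cone.apex C i) {x : V}
    (hx : x ∈ v.Bs) : prd (C.Y i) x (be C v) ≤ 7 * θ := by
  have hb := be_mem C v
  obtain ⟨v, hval⟩ := v
  cases v with
  | base a =>
    have h3 : x = a := hx
    have h4 : be C ⟨.base a, hval⟩ = a := rfl
    rw [h3, h4]
    exact hF.prd_self i a
  | lev j a k =>
    have h3 : x = a := hx
    have h4 : be C ⟨.lev j a k, hval⟩ = a := rfl
    rw [h3, h4]
    exact hF.prd_self i a
  | apex j =>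
    have hij : i ≠ j := by rintro rfl; exact hv rfl
    have := hF.small i j hij x hx _ hb
    omega

theorem prd_pj (hF : Fam C θ) (i : ι) (x y : V) :
    prd (C.Y i) x y ≤ d (pj C i x) (pj C i y) + 14 * θ := by
  apply prd_le
  intro a b ha hb
  have h1 := ha.p2 hF.hyp hF.one_le (hF.qc i) (pj_spec C i x)
  have h2 := (pj_spec C i y).p2 hF.hyp hF.one_le (hF.qc i) hb
  have t1 := tri a (pj C i x) b
  have t2 := tri (pj C i x) (pj C i y) b
  omega

theorem near_path {s D : ℕ} (hs : Slim (Cone C) s)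
    (hD : ∀ v w, ∀ z ∈ LL C v w, ∃ q, Bt v q w ∧ d z q ≤ D) {i : ι} (n : ℕ) (v w : Cone C)
    (z : ℕ → Cone C) (hz0 : z 0 = v) (hzn : z n = w)
    (hz : ∀ i j, i ≤ j → j ≤ n → d (z i) (z j) = j - i)
    (hlarge : 2 ^ C.ρ * C.R < d (av C i v) (av C i w)) :
    ∃ t ≤ n, d (z t) (Cone.apex C i) ≤ D + 2 * (3 * s + 1) := by
  obtain ⟨q, hq, hdq⟩ := hD v w _ (apex_mem_LL C hlarge)
  have hvw := hz 0 n (by omega) le_rfl
  rw [hz0, hzn] at hvw
  have hvq := hq.d_left_le
  refine ⟨d v q, by omega, ?_⟩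
  have e1 := hz 0 (d v q) (by omega) (by omega)
  have e2 := hz (d v q) n (by omega) le_rfl
  rw [hz0] at e1
  rw [hzn] at e2
  have e3 := hs.hyp.pp v w q (z (d v q))
  have t := tri (z (d v q)) q (Cone.apex C i)
  rw [GMet.symm (z (d v q)) q, GMet.symm q (Cone.apex C i)] at t
  unfold Bt at hq
  omega

theorem one_side {s D : ℕ} (hs : Slim (Cone C) s)
    (hD : ∀ v w, ∀ z ∈ LL C v w, ∃ q, Bt v q w ∧ d z q ≤ D) {i : ι} (n : ℕ) (v w : Cone C)
    (z : ℕ → Cone C) (hz0 : z 0 = v) (hzn : z n = w)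
    (hz : ∀ i j, i ≤ j → j ≤ n → d (z i) (z j) = j - i)
    (hlarge : 2 ^ C.ρ * C.R < d (av C i v) (av C i w)) :
    ∃ t ≤ n, d (z t) (Cone.apex C i) ≤ D + 2 * (3 * s + 1) + 1 ∧
      d (av C i v) (av C i (z t)) ≤ 2 ^ C.ρ * C.R := by
  classical
  have hex : ∃ t, t ≤ n ∧ d (z t) (Cone.apex C i) ≤ D + 2 * (3 * s + 1) := by
    obtain ⟨t, h1, h2⟩ := near_path hs hD n v w z hz0 hzn hz hlarge
    exact ⟨t, h1, h2⟩
  obtain ⟨ha1, ha2⟩ := Nat.find_spec hex
  have hmin := fun m => @Nat.find_min' _ _ hex m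
  generalize Nat.find hex = a at ha1 ha2 hmin
  rcases Nat.eq_zero_or_pos a with h0 | hpos
  · subst h0
    refine ⟨0, by omega, by omega, ?_⟩
    rw [hz0, d_self]
    omega
  · have h1 := hz (a - 1) a (by omega) ha1
    have t1 := tri (z (a - 1)) (z a) (Cone.apex C i)
    refine ⟨a - 1, by omega, by omega, ?_⟩
    by_contra hcon
    push Not at hcon
    obtain ⟨t, ht1, ht2⟩ := near_path hs hD (a - 1) v (z (a - 1)) z hz0 rfl
      (fun i j hij hj => hz i j hij (by omega)) hcon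
    have := hmin t ⟨by omega, ht2⟩
    omega

/-- the middle part -/
theorem mid (hF : Fam C θ) (hR : 16 * θ ≤ C.R) {i : ι} (n : ℕ) (v w : Cone C)
    (z : ℕ → Cone C) (hz0 : z 0 = v) (hzn : z n = w)
    (hz : ∀ i j, i ≤ j → j ≤ n → d (z i) (z j) = j - i) (hap : ¬ Bt v (Cone.apex C i) w)
    (p q N : ℕ) (hpq : p ≤ q) (hqn : q ≤ n) (hN : q - p ≤ N) :
    prd (C.Y i) (be C (z p)) (be C (z q)) ≤ (N + 1) * (2 ^ C.ρ * C.R) := by
  have h1 := Cone.path_angle C hF hR (i := i) (q - p) (z p) (z q) (hz p q hpq hqn) (by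
    rintro u hu rfl
    apply hap
    have e1 := hz 0 p (by omega) (by omega)
    have e2 := hz q n (by omega) le_rfl
    have e3 := hz p q hpq hqn
    have e4 := hz 0 n (by omega) le_rfl
    rw [hz0] at e1 e4
    rw [hzn] at e2 e4
    have t1 := tri v (z p) (Cone.apex C i)
    have t2 := tri (Cone.apex C i) (z q) w
    have t3 := tri v (Cone.apex C i) w
    unfold Bt at *
    omega) (be C (z p)) (be_mem C _) (be C (z q)) (be_mem C _)
  exact h1.trans (Nat.mul_le_mul_right _ (by omega))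

end S1

/-- BLOCK S1.E2 -/
theorem s1E2 : S1.E2Stmt := by
  intro s D
  refine ⟨42, 2 * (D + 2 * (3 * s + 1) + 1) + 5, ?_⟩
  intro V ι _ C θ hF hR hs hD i v w hv hw hap x hx y hy
  have h2 : 2 ^ 0 ≤ 2 ^ C.ρ := Nat.pow_le_pow_right (by omega) (by omega)
  have h2R : 1 * C.R ≤ 2 ^ C.ρ * C.R := Nat.mul_le_mul_right _ h2
  have p1 := S1.prd_be hF hv hx
  have p2 := S1.prd_be hF hw hy
  have t1 := hF.prd_tri i x (S1.be C v) y
  have t2 := hF.prd_tri i (S1.be C v) (S1.be C w) y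
  rw [prd_symm (S1.be C w) y] at t2
  have e0 := S1.prd_pj hF i (S1.be C v) (S1.be C w)
  by_cases hlarge : 2 ^ C.ρ * C.R < d (S1.av C i v) (S1.av C i w)
  · obtain ⟨z, hz0, hzn, hz⟩ := exists_path _ v w rfl
    obtain ⟨a, ha, ha1, ha2⟩ := S1.one_side hs hD _ v w z hz0 hzn hz hlarge
    obtain ⟨b, hb, hb1, hb2⟩ := S1.one_side hs hD (d v w) w v (fun t => z (d v w - t))
      (by simpa using hzn) (by simpa using hz0)
      (fun i j hij hj => by
        rw [GMet.symm, hz (d v w - j) (d v w - i) (by omega) (by omega)]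
        omega)
      (by rw [GMet.symm]; exact hlarge)
    set b' := d v w - b with hb'
    have hmid : prd (C.Y i) (S1.be C (z a)) (S1.be C (z b')) ≤
        (2 * (D + 2 * (3 * s + 1) + 1) + 1) * (2 ^ C.ρ * C.R) := by
      have t3 := tri (z a) (Cone.apex C i) (z b')
      rw [GMet.symm (Cone.apex C i) (z b')] at t3
      rcases le_total a b' with h | h
      · have := hz a b' h (by omega)
        exact S1.mid hF (by omega) _ v w z hz0 hzn hz hap a b' _ h (by omega) (by omega)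
      · have := hz b' a h (by omega)
        rw [GMet.symm (z a)] at t3
        rw [prd_symm]
        exact S1.mid hF (by omega) _ v w z hz0 hzn hz hap b' a _ h (by omega) (by omega)
    have q1 := S1.prd_pj hF i (S1.be C v) (S1.be C (z a))
    have q2 := S1.prd_pj hF i (S1.be C w) (S1.be C (z b'))
    have t4 := hF.prd_tri i (S1.be C v) (S1.be C (z a)) (S1.be C w)
    have t5 := hF.prd_tri i (S1.be C (z a)) (S1.be C (z b')) (S1.be C w)
    rw [prd_symm (S1.be C (z b'))] at t5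
    have r1 : d (S1.pj C i (S1.be C v)) (S1.pj C i (S1.be C (z a))) ≤ 2 ^ C.ρ * C.R := ha2
    have r2 : d (S1.pj C i (S1.be C w)) (S1.pj C i (S1.be C (z b'))) ≤ 2 ^ C.ρ * C.R := hb2
    generalize 2 ^ C.ρ * C.R = M at *
    rw [add_mul] at hmid ⊢
    omega
  · push Not at hlarge
    have r1 : d (S1.pj C i (S1.be C v)) (S1.pj C i (S1.be C w)) ≤ 2 ^ C.ρ * C.R := hlarge
    generalize 2 ^ C.ρ * C.R = M at *
    nlinarith

end FrobP
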