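import Pool.Agent.Work.MP_50f8f6_al.Interface

/-!
# Block L1: nice actions on trees are `Good`
-/

namespace FrobP
open GMet

namespace TreeG

variable {K V : Type} [GMet V]

/-- points of an interval with the same position coincide -/
theorem eq_of_pos (hyp : Hyp V 0) {x y w w' : V} (hw : Bt x w y) (hw' : Bt x w' y)
    (h : d x w = d x w') : w = w' := by
  apply eq_of_d
  have := hyp.pp x y w w'
  unfold Bt at hw hw'
  omega

theorem hyp_mono {δ : ℕ} (hyp : Hyp V 0) : Hyp V δ := by
  intro x y z w
  have := hyp x y z w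
  omega

/-- distance to a point of an interval -/
theorem dist_bt (hyp : Hyp V 0) {x z y : V} (hz : Bt x z y) (w : V) :
    d w z = max (d w x - d x z) (d w y - d z y) := by
  have h1 := hyp.h1 hz w
  have h2 := tri w z x
  have h3 := tri w z y
  rw [GMet.symm z x] at h2
  unfold Bt at hz
  have h4 := tri w x z
  have h5 := tri w y z
  rw [GMet.symm y z] at h5
  omega

variable [Group K] [MulAction K V]
  (hi : ∀ (g : K) (x y : V), d (g • x) (g • y) = d x y) (hyp : Hyp V 0)
  (hpar : ∀ x y z : V, Even (d x y + d y z + d z x))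
  (hinv : ∀ (g : K) (x : V), d x (g • x) = 1 → g • g • x ≠ x)

include hi in
theorem bt_smul {x z y : V} (g : K) (h : Bt x z y) : Bt (g • x) (g • z) (g • y) := by
  unfold Bt at *
  rw [hi, hi, hi, h]

include hi hyp hpar hinv in
/-- if `g` has no fixed point then `d(x,gx) < d(x,g²x)` -/
theorem lt_sq (g : K) (hg : ∀ x : V, g • x ≠ x) (x : V) : d x (g • x) < d x (g • g • x) := by
  by_contra hcon
  push Not at hcon
  set n := d x (g • x) with hn
  have hev := hpar x (g • x) (g • g • x)
  rw [hi, ← hn, GMet.symm (g • g • x) x, Nat.even_iff] at hev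
  have e1 : d (g • x) (g • g • x) = n := by rw [hi]
  rcases Nat.even_or_odd' n with ⟨m, hm | hm⟩
  · -- the midpoint is fixed
    obtain ⟨z, hz, hz1⟩ := exists_bt x (g • x) (k := m) (by omega)
    have hz2 : d z (g • x) = m := by unfold Bt at hz; omega
    apply hg z
    have hgz := bt_smul hi g hz
    have a1 : d (g • x) (g • z) = m := by rw [hi, hz1]
    have a2 : d (g • z) (g • g • x) = m := by rw [hi, hz2]
    have b1 := dist_bt hyp hz (g • z)
    have b2 := dist_bt hyp hgz x
    rw [GMet.symm (g • z) x, GMet.symm (g • z) (g • x)] at b1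
    symm
    apply eq_of_d
    rw [GMet.symm]
    omega
  · obtain ⟨z, hz, hz1⟩ := exists_bt x (g • x) (k := m) (by omega)
    have hz2 : d z (g • x) = m + 1 := by unfold Bt at hz; omega
    have hgz := bt_smul hi g hz
    have hggz := bt_smul hi g hgz
    have a1 : d (g • x) (g • z) = m := by rw [hi, hz1]
    have a2 : d (g • z) (g • g • x) = m + 1 := by rw [hi, hz2]
    have b1 := dist_bt hyp hz (g • z)
    have b2 := dist_bt hyp hgz x
    rw [GMet.symm (g • z) x, GMet.symm (g • z) (g • x)] at b1
    have h1 : d z (g • z) = 1 := by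
      rw [GMet.symm]
      have : g • z ≠ z := hg z
      have : d (g • z) z ≠ 0 := fun h => this (eq_of_d _ _ h)
      omega
    apply hinv g z h1
    -- `z` is on `[gx, ggx]` at distance `m + 1` from `gx`
    -- the point `g z'` with `z'` on `[x, gx]`, `d x z' = m+1`
    have c1 : Bt x (g • z) (g • x) := by
      have := b2
      unfold Bt
      rw [GMet.symm (g • z) (g • x), a1]
      omega
    have c2 := bt_smul hi g c1
    have c3 : d (g • x) (g • g • z) = m + 1 := by
      rw [hi]
      unfold Bt at c1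
      rw [GMet.symm (g • z) (g • x), a1] at c1
      omega
    have c4 : Bt (g • x) z (g • g • x) := by
      have := dist_bt hyp hz (g • g • x)
      unfold Bt
      rw [GMet.symm (g • x) z, hz2, e1, GMet.symm z]
      rw [GMet.symm (g • g • x) x, GMet.symm (g • g • x) (g • x), e1] at this
      omega
    exact (eq_of_pos hyp c4 c2 (by rw [GMet.symm, hz2, c3])).symm

include hi hyp hpar hinv in
/-- the displacement of powers of a fixed point free element -/
theorem le_pow (g : K) (hg : ∀ x : V, g • x ≠ x) (x : V) (m : ℕ) : m ≤ d x (g ^ m • x) := by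
  have h12 : d x (g ^ 1 • x) < d x (g ^ 2 • x) := by
    have := lt_sq hi hyp hpar hinv g hg x
    rwa [pow_one, pow_two, mul_smul]
  have h1 : 1 ≤ d x (g ^ 1 • x) := by
    rw [pow_one]
    by_contra h
    exact hg x (eq_of_d _ _ (by omega)).symm
  have hf : ∀ k : ℕ, 2 * d x (g ^ (k + 2) • x) ≤
      max (2 * d x (g ^ 1 • x)) (d x (g ^ (k + 3) • x) + d x (g ^ (k + 1) • x)) := by
    intro k
    have h4 := hyp x (g ^ (k + 2) • x) (g • x) (g ^ (k + 3) • x)
    have e1 : d (g • x) (g ^ (k + 3) • x) = d x (g ^ (k + 2) • x) := by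
      rw [show g ^ (k + 3) = g * g ^ (k + 2) from pow_succ' g (k + 2), mul_smul, hi]
    have e2 : d (g ^ (k + 2) • x) (g ^ (k + 3) • x) = d x (g ^ 1 • x) := by
      rw [show g ^ (k + 3) = g ^ (k + 2) * g ^ 1 by rw [← pow_add], mul_smul, hi]
    have e3 : d (g ^ (k + 2) • x) (g • x) = d x (g ^ (k + 1) • x) := by
      rw [show g ^ (k + 2) = g * g ^ (k + 1) from pow_succ' g (k + 1), mul_smul, hi, GMet.symm]
    have e4 : d x (g • x) = d x (g ^ 1 • x) := by rw [pow_one]
    rw [e1, e2, e3, e4] at h4
    omega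
  have key : ∀ k : ℕ, k + 1 ≤ d x (g ^ (k + 1) • x) ∧ d x (g ^ 1 • x) ≤ d x (g ^ (k + 1) • x) ∧
      d x (g ^ (k + 1) • x) < d x (g ^ (k + 2) • x) := by
    intro k
    induction k with
    | zero => exact ⟨h1, le_rfl, h12⟩
    | succ k ih =>
      have := hf k
      obtain ⟨a, b, c⟩ := ih
      change k + 1 + 1 ≤ d x (g ^ (k + 2) • x) ∧ d x (g ^ 1 • x) ≤ d x (g ^ (k + 2) • x) ∧
        d x (g ^ (k + 2) • x) < d x (g ^ (k + 3) • x)
      omega
  cases m with
  | zero => omega
  | succ k => exact (key k).1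

include hi hyp hpar in
/-- distance to the fixed point set -/
theorem near_fix (g : K) (c x : V) (hc : g • c = c) :
    ∃ z, g • z = z ∧ 2 * d x z = d x (g • x) := by
  have h1 : d (g • x) c = d x c := by
    have := hi g x c
    rwa [hc] at this
  have hev := hpar x (g • x) c
  rw [h1, GMet.symm c x, Nat.even_iff] at hev
  obtain ⟨m, hm⟩ : ∃ m, d x (g • x) = 2 * m := ⟨d x (g • x) / 2, by omega⟩
  obtain ⟨z, hz, hz1⟩ := exists_bt x (g • x) (k := m) (by omega)
  have hz2 : d z (g • x) = m := by unfold Bt at hz; omega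
  refine ⟨z, ?_, by omega⟩
  have htri := tri x c (g • x)
  rw [GMet.symm c (g • x), h1] at htri
  have a1 := dist_bt hyp hz c
  rw [GMet.symm c x, GMet.symm c (g • x), h1, hz1, hz2, max_self, GMet.symm c z] at a1
  have b1 : Bt (g • x) z c := by
    unfold Bt
    rw [GMet.symm (g • x) z, hz2, a1, h1]
    omega
  have b2 : Bt x z c := by
    unfold Bt
    rw [hz1, a1]
    omega
  have b3 := bt_smul hi g b2
  rw [hc] at b3
  exact eq_of_pos hyp b3 b1 (by rw [hi, hz1, GMet.symm, hz2])

include hi hyp hpar hinv in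
/-- coboundedness for fixed point free elements -/
theorem cob (g : K) (hg : ∀ x : V, g • x ≠ x) (x y : V) :
    ∃ k : ℤ, 2 * d (g ^ k • x) y + 1 ≤ d x (g • x) + d y (g • y) := by
  -- choose `k` minimizing the distance
  classical
  have hex : ∃ n : ℕ, ∃ k : ℤ, d (g ^ k • x) y = n := ⟨_, 0, rfl⟩
  obtain ⟨k, hk⟩ := Nat.find_spec hex
  have hmin : ∀ j : ℤ, d (g ^ k • x) y ≤ d (g ^ j • x) y := by
    intro j
    rw [hk]
    exact Nat.find_min' hex ⟨j, rfl⟩
  refine ⟨k, ?_⟩
  have hx' : d x (g • x) = d (g ^ k • x) (g • g ^ k • x) := by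
    rw [← mul_smul, ← zpow_one_add, add_comm, zpow_add_one, mul_smul, hi]
  rw [hx']
  have m1 : d (g ^ k • x) y ≤ d (g • g ^ k • x) y := by
    have := hmin (1 + k)
    rwa [zpow_one_add, mul_smul] at this
  have m2 : d (g ^ k • x) y ≤ d (g⁻¹ • g ^ k • x) y := by
    have := hmin (-1 + k)
    rwa [zpow_add, zpow_neg_one, mul_smul] at this
  generalize g ^ k • x = w at m1 m2
  clear hx' hmin hk
  have m1' : d w y ≤ d (g • w) y := m1
  have m2' : d w y ≤ d w (g • y) := by
    have := hi g (g⁻¹ • w) y
    rw [smul_inv_smul] at this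
    rw [this]
    exact m2
  have l1 := lt_sq hi hyp hpar hinv g hg (g⁻¹ • w)
  rw [smul_inv_smul] at l1
  have e1 : d (g⁻¹ • w) w = d w (g • w) := by
    have := hi g (g⁻¹ • w) w
    rw [smul_inv_smul] at this
    exact this.symm
  rw [e1] at l1
  have p1 := hyp y w (g • w) (g⁻¹ • w)
  have p2 := hyp (g • w) y w (g • y)
  have e2 : d (g • w) (g • y) = d w y := hi g w y
  have e3 : d (g • w) w = d w (g • w) := GMet.symm _ _
  have e4 : d w (g⁻¹ • w) = d w (g • w) := by rw [GMet.symm, e1]
  have e5 : d (g • w) (g⁻¹ • w) = d (g⁻¹ • w) (g • w) := GMet.symm _ _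
  have e6 : d y (g • w) = d (g • w) y := GMet.symm _ _
  have e7 : d y (g⁻¹ • w) = d w (g • y) := by
    have := hi g (g⁻¹ • w) y
    rw [smul_inv_smul] at this
    rw [this, GMet.symm]
  have e8 : d y w = d w y := GMet.symm _ _
  have e9 : d w (g⁻¹ • w) = d w (g • w) := e4
  have e10 : d w (g • w) = d w (g • w) := rfl
  omega

include hi hyp in
theorem slide (g : K) (x y z : V) (D : ℕ) (hz : Bt x z y) (hx : d x (g • x) ≤ D)
    (hy : d y (g • y) ≤ D) (h1 : D ≤ d x z) (h2 : D ≤ d z y) :
    Bt x (g • z) y ∧ d x (g • z) + d x y = d x z + d x (g • y) := by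
  have hgz := bt_smul hi g hz
  have a1 := dist_bt hyp hgz x
  have a2 := dist_bt hyp hgz y
  rw [hi, hi] at a1 a2
  have p := hyp x (g • y) y (g • x)
  have t1 := tri x (g • y) y
  have t2 := tri x (g • x) y
  have t3 := tri (g • x) y (g • y)
  have t4 := tri x (g • z) y
  have e1 : d (g • y) (g • x) = d x y := by rw [hi, GMet.symm]
  have e2 : d (g • x) (g • y) = d x y := by rw [hi]
  have e3 : d (g • y) y = d y (g • y) := GMet.symm _ _
  have e4 : d (g • x) y = d y (g • x) := GMet.symm _ _
  have e5 : d (g • z) y = d y (g • z) := GMet.symm _ _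
  have e6 : d (g • y) (g • x) = d x y := e1
  unfold Bt at *
  omega

include hi hyp in
/-- elements with small displacement at two far apart points commute -/
theorem com (h2 : ∀ (g : K) (x y : V), g ≠ 1 → g • x = x → g • y = y → d x y ≤ 1)
    (g h : K) (x y : V) (D : ℕ) (gx : d x (g • x) ≤ D) (gy : d y (g • y) ≤ D)
    (hx : d x (h • x) ≤ D) (hy : d y (h • y) ≤ D) (hd : 4 * D + 2 ≤ d x y) :
    g * h = h * g := by
  have key : ∀ z, Bt x z y → 2 * D ≤ d x z → 2 * D ≤ d z y → g • h • z = h • g • z := by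
    intro z hz z1 z2
    obtain ⟨a1, a2⟩ := slide hi hyp g x y z D hz gx gy (by omega) (by omega)
    obtain ⟨b1, b2⟩ := slide hi hyp h x y z D hz hx hy (by omega) (by omega)
    have t1 := tri x y (g • y)
    have t2 := tri x y (h • y)
    have t3 := tri x (g • y) y
    have t4 := tri x (h • y) y
    have t5 : d (g • y) y = d y (g • y) := GMet.symm _ _
    have t6 : d (h • y) y = d y (h • y) := GMet.symm _ _
    have a1' := a1
    have b1' := b1
    unfold Bt at a1' b1' hz
    obtain ⟨c1, c2⟩ := slide hi hyp g x y (h • z) D b1 gx gy (by omega) (by omega)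
    obtain ⟨d1, d2⟩ := slide hi hyp h x y (g • z) D a1 hx hy (by omega) (by omega)
    exact eq_of_pos hyp c1 d1 (by omega)
  by_contra hne
  obtain ⟨z, hz, hz1⟩ := exists_bt x y (k := 2 * D) (by omega)
  obtain ⟨w, hw, hw1⟩ := exists_bt x y (k := 2 * D + 2) (by omega)
  have k1 := key z hz (by omega) (by unfold Bt at hz; omega)
  have k2 := key w hw (by omega) (by unfold Bt at hw; omega)
  have := h2 ((h * g)⁻¹ * (g * h)) z w (fun e => hne (inv_mul_eq_one.mp e).symm)
    (by rw [mul_smul, mul_smul, k1, ← mul_smul h g z, inv_smul_smul])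
    (by rw [mul_smul, mul_smul, k2, ← mul_smul h g w, inv_smul_smul])
  have t := tri x z w
  omega

include hi hyp hpar hinv in
/-- centralizers are cyclic -/
theorem cyc (h2 : ∀ (g : K) (x y : V), g ≠ 1 → g • x = x → g • y = y → d x y ≤ 1)
    (hcen : ∀ (g h : K) (x : V), g ≠ 1 → g • x = x → h • x = x → g * h = h * g →
      h ∈ Subgroup.zpowers g) (x0 : V)
    (g : K) (hg : g ≠ 1) : IsCyclic (Subgroup.centralizer {g}) := by
  classical
  -- an element commuting with an elliptic element fixes its fixed points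
  have fixcen : ∀ (u g : K) (x : V), g ≠ 1 → g • x = x → u * g = g * u → u • x = x := by
    intro u g x hg hx hu
    have f1 : g • u • x = u • x := by rw [← mul_smul, ← hu, mul_smul, hx]
    have f2 : g • u • u • x = u • u • x := by
      rw [← mul_smul, ← hu, mul_smul, f1]
    by_contra hne
    have d1 : d x (u • x) = 1 := by
      have := h2 g x (u • x) hg hx f1
      have : d x (u • x) ≠ 0 := fun h => hne (eq_of_d _ _ h).symm
      omega
    have d2 := h2 g x (u • u • x) hg hx f2
    have hev := hpar x (u • x) (u • u • x)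
    rw [hi, d1, GMet.symm (u • u • x) x, Nat.even_iff] at hev
    exact hinv u x d1 (eq_of_d _ _ (by omega)).symm
  rw [Subgroup.isCyclic_iff_exists_zpowers_eq_top]
  by_cases hell : ∃ x : V, g • x = x
  · obtain ⟨x, hx⟩ := hell
    refine ⟨g, le_antisymm ?_ ?_⟩
    · rw [Subgroup.zpowers_le, Subgroup.mem_centralizer_singleton_iff]
    · intro u hu
      rw [Subgroup.mem_centralizer_singleton_iff] at hu
      exact hcen g u x hg hx (fixcen u g x hg hx hu) hu.symm
  · push Not at hell
    -- all nontrivial elements of the centralizer are fixed point free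
    have hfree : ∀ u : K, u * g = g * u → u ≠ 1 → ∀ x : V, u • x ≠ x := by
      intro u hu hu1 x hx
      exact hell x (fixcen g u x hu1 hx hu.symm)
    have hab : ∀ u v : K, u * g = g * u → v * g = g * v → u * v = v * u := by
      intro u v hu hv
      have hdis : ∀ w : K, w * g = g * w → ∀ m : ℕ,
          d (g ^ m • x0) (w • g ^ m • x0) = d x0 (w • x0) := by
        intro w hw m
        have hc : w * g ^ m = g ^ m * w := (Commute.pow_right hw m)
        rw [← mul_smul, hc, mul_smul, hi]
      set D := max (d x0 (u • x0)) (d x0 (v • x0)) with hD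
      refine com hi hyp h2 u v x0 (g ^ (4 * D + 2) • x0) D (by omega) ?_ (by omega) ?_
        (le_pow hi hyp hpar hinv g hell x0 _)
      · rw [hdis u hu]; omega
      · rw [hdis v hv]; omega
    -- choose the nontrivial element of minimal displacement
    have hex : ∃ n : ℕ, ∃ (v : K) (x : V), v * g = g * v ∧ v ≠ 1 ∧ d x (v • x) = n :=
      ⟨_, g, x0, rfl, hg, rfl⟩
    obtain ⟨v, x, hv, hv1, hd⟩ := Nat.find_spec hex
    have hmin : ∀ (w : K), w * g = g * w → w ≠ 1 → d x (v • x) ≤ d x (w • x) := by
      intro w hw hw1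
      rw [hd]
      exact Nat.find_min' hex ⟨w, x, hw, hw1, rfl⟩
    refine ⟨v, le_antisymm ?_ ?_⟩
    · rw [Subgroup.zpowers_le, Subgroup.mem_centralizer_singleton_iff]
      exact hv
    · intro u hu
      rw [Subgroup.mem_centralizer_singleton_iff] at hu
      obtain ⟨k, hk⟩ := cob hi hyp hpar hinv v (hfree v hv hv1) (u • x) x
      have e1 : d (u • x) (v • u • x) = d x (v • x) := by
        rw [← mul_smul, ← hab u v hu hv, mul_smul, hi]
      rw [e1, ← mul_smul, GMet.symm] at hk
      have hw : v ^ k * u * g = g * (v ^ k * u) := by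
        have c1 : Commute (v ^ k) g := Commute.zpow_left hv k
        have c2 : Commute u g := hu
        exact (c1.mul_left c2)
      by_cases hw1 : v ^ k * u = 1
      · rw [Subgroup.mem_zpowers_iff]
        refine ⟨-k, ?_⟩
        rw [zpow_neg]
        exact inv_eq_of_mul_eq_one_right hw1
      · have := hmin _ hw hw1
        omega

end TreeG

open TreeG

/-- BLOCK L1 -/
theorem treeGood : TreeGoodStmt := by
  intro K V _ _ _ p hp hp3 hne hi hyp hpar hinv h2 hfp hcen δ ℓ A r hr hA
  refine
    { ne := hne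
      isom := hi
      hyp := hyp_mono hyp
      dich := ?_
      cb := ?_
      ac := ?_
      cen := ?_ }
  · intro g
    by_cases hell : ∃ x : V, g • x = x
    · obtain ⟨x, hx⟩ := hell
      refine Or.inl ⟨hfp g x hx, x, fun k => ?_⟩
      have : g ^ k • x = x := by
        induction k with
        | zero => rw [pow_zero, one_smul]
        | succ k ih => rw [pow_succ, mul_smul, hx, ih]
      rw [this, d_self]
      omega
    · push Not at hell
      refine Or.inr fun x m => ?_
      have := le_pow hi hyp hpar hinv g hell x m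
      nlinarith
  · intro g hg x y hx hy
    by_cases hell : ∃ x : V, g • x = x
    · obtain ⟨c, hc⟩ := hell
      obtain ⟨z, hz, hz1⟩ := near_fix hi hyp hpar g c x hc
      obtain ⟨w, hw, hw1⟩ := near_fix hi hyp hpar g c y hc
      refine ⟨0, ?_⟩
      rw [zpow_zero, one_smul]
      have t1 := h2 g z w hg hz hw
      have t2 := tri x z y
      have t3 := tri z w y
      rw [GMet.symm w y] at t3
      omega
    · push Not at hell
      obtain ⟨k, hk⟩ := cob hi hyp hpar hinv g hell x y
      exact ⟨k, by omega⟩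
  · intro g h _ _ x y gx gy hx hy hd
    exact com hi hyp h2 g h x y ℓ gx gy hx hy (by omega)
  · intro g hg _
    exact cyc hi hyp hpar hinv h2 hcen hne.some g hg

end FrobP
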