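import Pool.Agent.Work.MP_50f8f6_al.Interface

/-!
# Block L2: the Bass–Serre tree of an HNN extension

Vertices: `K ⧸ G`; the vertex `x G` is described by the (reversed) syllable list of the normal form
of `x⁻¹`; the distance is the tree distance of the rooted tree of these lists.
-/

namespace FrobP
open GMet

namespace HNNT

section lists
variable {α : Type}

open Classical in
/-- length of the longest common prefix -/
noncomputable def cp : List α → List α → ℕ
  | [], _ => 0
  | _ :: _, [] => 0
  | a :: l, b :: l' => if a = b then cp l l' + 1 else 0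

@[simp] theorem cp_nil_left (l : List α) : cp [] l = 0 := by simp [cp]
@[simp] theorem cp_nil_right (l : List α) : cp l [] = 0 := by cases l <;> simp [cp]

theorem cp_cons (a : α) (l l' : List α) : cp (a :: l) (a :: l') = cp l l' + 1 := by simp [cp]

theorem cp_cons_ne {a b : α} (h : a ≠ b) (l l' : List α) : cp (a :: l) (b :: l') = 0 := by
  simp [cp, h]

theorem cp_comm : ∀ l l' : List α, cp l l' = cp l' l
  | [], l' => by simp
  | _ :: _, [] => by simp
  | a :: l, b :: l' => by
    by_cases h : a = b
    · subst h; rw [cp_cons, cp_cons, cp_comm l l']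
    · rw [cp_cons_ne h, cp_cons_ne (Ne.symm h)]

theorem cp_le_left : ∀ l l' : List α, cp l l' ≤ l.length
  | [], l' => by simp
  | _ :: _, [] => by simp
  | a :: l, b :: l' => by
    by_cases h : a = b
    · subst h; rw [cp_cons, List.length_cons]; have := cp_le_left l l'; omega
    · rw [cp_cons_ne h]; omega

theorem cp_le_right (l l' : List α) : cp l l' ≤ l'.length := by
  rw [cp_comm]; exact cp_le_left _ _

theorem cp_self : ∀ l : List α, cp l l = l.length
  | [] => by simp
  | a :: l => by rw [cp_cons, cp_self l, List.length_cons]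

theorem cp_ultra : ∀ x y z : List α, min (cp x y) (cp y z) ≤ cp x z
  | [], _, _ => by simp
  | _ :: _, [], _ => by simp
  | _ :: _, _ :: _, [] => by simp
  | a :: x, b :: y, c :: z => by
    by_cases h : a = b
    · subst h
      by_cases h' : a = c
      · subst h'
        rw [cp_cons, cp_cons, cp_cons]
        have := cp_ultra x y z
        omega
      · rw [cp_cons_ne h' y z]; omega
    · rw [cp_cons_ne h]; omega

theorem cp_take : ∀ (x y : List α) (m : ℕ), cp (x.take m) y = min m (cp x y)
  | [], y, m => by simp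
  | _ :: _, [], m => by simp
  | a :: x, b :: y, 0 => by simp
  | a :: x, b :: y, m + 1 => by
    rw [List.take_succ_cons]
    by_cases h : a = b
    · subst h
      rw [cp_cons, cp_cons, cp_take x y m]; omega
    · rw [cp_cons_ne h, cp_cons_ne h]; omega

theorem eq_take_of_cp : ∀ (x y : List α), cp x y = x.length → x = y.take x.length
  | [], y, _ => by simp
  | _ :: _, [], h => by simp at h
  | a :: x, b :: y, h => by
    by_cases hab : a = b
    · subst hab
      rw [cp_cons, List.length_cons] at h
      rw [List.length_cons, List.take_succ_cons, ← eq_take_of_cp x y (by omega)]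
    · rw [cp_cons_ne hab] at h; simp at h

/-- distance on lists -/
noncomputable def D (x y : List α) : ℕ := x.length + y.length - 2 * cp x y

theorem D_spec (x y : List α) : D x y + 2 * cp x y = x.length + y.length := by
  unfold D
  have := cp_le_left x y
  have := cp_le_right x y
  omega

theorem D_self (x : List α) : D x x = 0 := by
  have := D_spec x x
  rw [cp_self] at this
  omega

theorem D_symm (x y : List α) : D x y = D y x := by
  have h1 := D_spec x y
  have h2 := D_spec y x
  rw [cp_comm y x] at h2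
  omega

theorem eq_of_D (x y : List α) (h : D x y = 0) : x = y := by
  have h1 := D_spec x y
  have h2 := cp_le_left x y
  have h3 := cp_le_right x y
  have h4 := eq_take_of_cp x y (by omega)
  rwa [List.take_of_length_le (by omega)] at h4

theorem D_tri (x y z : List α) : D x z ≤ D x y + D y z := by
  have h1 := D_spec x y
  have h2 := D_spec y z
  have h3 := D_spec x z
  have h4 := cp_le_left y z
  have h5 := cp_le_right x y
  have h6 := cp_ultra x y z
  omega

theorem D_hyp (x y z w : List α) : D x y + D z w ≤ max (D x z + D y w) (D x w + D y z) := by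
  have a1 := D_spec x y
  have a2 := D_spec z w
  have a3 := D_spec x z
  have a4 := D_spec y w
  have a5 := D_spec x w
  have a6 := D_spec y z
  have u1 := cp_ultra x y z
  have u2 := cp_ultra x z y
  have u3 := cp_ultra y x z
  have u4 := cp_ultra x y w
  have u5 := cp_ultra x w y
  have u6 := cp_ultra y x w
  have u7 := cp_ultra x z w
  have u8 := cp_ultra x w z
  have u9 := cp_ultra z x w
  have v1 := cp_ultra y z w
  have v2 := cp_ultra y w z
  have v3 := cp_ultra z y w
  rw [cp_comm z y, ] at *
  rw [cp_comm y x] at *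
  rw [cp_comm w y] at *
  rw [cp_comm z x] at *
  rw [cp_comm w z] at *
  rcases le_total (cp x y) (cp z w) with h | h <;>
  rcases le_total (cp x z) (cp y w) with h' | h' <;>
  rcases le_total (cp x w) (cp y z) with h'' | h'' <;> omega

theorem D_even (x y z : List α) : Even (D x y + D y z + D z x) := by
  have a1 := D_spec x y
  have a2 := D_spec y z
  have a3 := D_spec z x
  rw [Nat.even_iff]
  omega

theorem D_take_left (x y : List α) (m : ℕ) (h1 : cp x y ≤ m) (h2 : m ≤ x.length) :
    D x (x.take m) = x.length - m ∧ D (x.take m) y = D x y - (x.length - m) := by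
  have e1 : cp (x.take m) x = m := by rw [cp_take, cp_self]; omega
  have e2 : cp (x.take m) y = cp x y := by rw [cp_take]; omega
  have e3 : (x.take m).length = m := by rw [List.length_take]; omega
  have a1 := D_spec x (x.take m)
  have a2 := D_spec (x.take m) y
  have a3 := D_spec x y
  have a4 := cp_le_right x y
  rw [cp_comm, e1, e3] at a1
  rw [e2, e3] at a2
  omega

theorem D_geo (S : Set (List α)) (hS : ∀ x ∈ S, ∀ m, x.take m ∈ S) (x y : List α) (hx : x ∈ S)
    (hy : y ∈ S) (k : ℕ) (hk : k ≤ D x y) : ∃ z ∈ S, D x z = k ∧ k + D z y = D x y := by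
  have a1 := cp_le_left x y
  have a2 := cp_le_right x y
  have a3 := D_spec x y
  by_cases h : k + cp x y ≤ x.length
  · obtain ⟨b1, b2⟩ := D_take_left x y (x.length - k) (by omega) (by omega)
    exact ⟨_, hS x hx (x.length - k), by omega, by omega⟩
  · obtain ⟨b1, b2⟩ := D_take_left y x (k + 2 * cp x y - x.length)
      (by rw [cp_comm y x]; omega) (by omega)
    rw [D_symm y x] at b2
    rw [D_symm] at b1 b2
    exact ⟨_, hS y hy (k + 2 * cp x y - x.length), by omega, by omega⟩

/-- at distance one, one of the lists is the other one with one more entry -/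
theorem D_one (x y : List α) (h : D x y = 1) : (∃ a, x = y ++ [a]) ∨ (∃ a, y = x ++ [a]) := by
  have key : ∀ x y : List α, cp x y = x.length → y.length = x.length + 1 → ∃ a, y = x ++ [a] := by
    intro x y h1 h2
    have h3 := eq_take_of_cp x y h1
    have h4 : y = y.take x.length ++ y.drop x.length := (List.take_append_drop _ _).symm
    have h5 : (y.drop x.length).length = 1 := by rw [List.length_drop]; omega
    obtain ⟨a, ha⟩ := List.length_eq_one_iff.mp h5
    exact ⟨a, by rw [ha, ← h3] at h4; exact h4⟩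
  have a1 := cp_le_left x y
  have a2 := cp_le_right x y
  have a3 := D_spec x y
  rcases le_total x.length y.length with h' | h'
  · exact Or.inr (key x y (by omega) (by omega))
  · exact Or.inl (key y x (by rw [cp_comm]; omega) (by omega))

theorem D_append (x : List α) (a : α) : D x (x ++ [a]) = 1 := by
  have e : cp x (x ++ [a]) = x.length := by
    have := cp_take (x ++ [a]) (x ++ [a]) x.length
    rw [List.take_left, cp_self, List.length_append, List.length_singleton] at this
    omega
  have a3 := D_spec x (x ++ [a])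
  rw [e, List.length_append, List.length_singleton] at a3
  omega

end lists

open HNNExtension HNNExtension.NormalWord

section tree
variable {G : Type} [Group G] {A B : Subgroup G} {φ : A ≃* B}

variable (A B φ) in
/-- vertices of the tree -/
def VT : Type := HNNExtension G A B φ ⧸ (of : G →* HNNExtension G A B φ).range

instance : MulAction (HNNExtension G A B φ) (VT A B φ) :=
  inferInstanceAs (MulAction (HNNExtension G A B φ)
    (HNNExtension G A B φ ⧸ (of : G →* HNNExtension G A B φ).range))

/-- the vertex `x G` -/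
def vt (x : HNNExtension G A B φ) : VT A B φ :=
  (QuotientGroup.mk x : HNNExtension G A B φ ⧸ (of : G →* HNNExtension G A B φ).range)

theorem vt_surj (v : VT A B φ) : ∃ x, vt x = v := QuotientGroup.mk_surjective v

theorem smul_vt (g x : HNNExtension G A B φ) : g • (vt x : VT A B φ) = vt (g * x) := rfl

theorem vt_eq {x y : HNNExtension G A B φ} :
    (vt x : VT A B φ) = vt y ↔ ∃ a : G, y = x * of a := by
  have : (vt x : VT A B φ) = vt y ↔ x⁻¹ * y ∈ (of : G →* HNNExtension G A B φ).range :=
    QuotientGroup.eq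
  rw [this]
  constructor
  · rintro ⟨a, ha⟩
    exact ⟨a, by rw [ha]; group⟩
  · rintro ⟨a, ha⟩
    exact ⟨a, by rw [ha]; group⟩

theorem vt_mul_of (x : HNNExtension G A B φ) (a : G) : (vt (x * of a) : VT A B φ) = vt x :=
  (vt_eq.2 ⟨a, rfl⟩).symm

/-- a transversal pair -/
noncomputable def tp (A B : Subgroup G) : TransversalPair G A B :=
  Classical.choice (TransversalPair.nonempty G A B)

/-- the normal form of `x⁻¹` -/
noncomputable def nw (x : HNNExtension G A B φ) : NormalWord (tp A B) := x⁻¹ • NormalWord.empty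

theorem prod_nw (x : HNNExtension G A B φ) : (nw x).prod φ = x⁻¹ := by
  unfold nw
  rw [prod_smul, prod_empty, mul_one]

theorem nw_prod (w : NormalWord (tp A B)) : nw (w.prod φ)⁻¹ = w := by
  unfold nw
  rw [inv_inv, prod_smul_empty]

theorem nw_mul_of (x : HNNExtension G A B φ) (a : G) : nw (x * of a) = a⁻¹ • nw x := by
  unfold nw
  rw [mul_inv_rev, mul_smul, ← map_inv, of_smul_eq_smul]

theorem nw_mul_t (x : HNNExtension G A B φ) (u : ℤˣ) :
    nw (x * t ^ (u : ℤ)) = unitsSMul φ (-u) (nw x) := by
  unfold nw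
  rw [mul_inv_rev, mul_smul, ← t_pow_smul_eq_unitsSMul, ← zpow_neg, Units.val_neg]

/-- list of a vertex -/
noncomputable def LV (v : VT A B φ) : List (ℤˣ × G) :=
  Quotient.liftOn' (s₁ := QuotientGroup.leftRel (of : G →* HNNExtension G A B φ).range) v
    (fun x => (nw x).toList.reverse) (by
      intro x y h
      rw [QuotientGroup.leftRel_apply] at h
      obtain ⟨a, ha⟩ := h
      have hy : y = x * of a := by rw [ha]; group
      change (nw x).toList.reverse = (nw y).toList.reverse
      rw [hy, nw_mul_of]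
      rfl)

theorem LV_vt (x : HNNExtension G A B φ) : LV (vt x) = (nw x).toList.reverse := rfl

theorem LV_inj : Function.Injective (LV : VT A B φ → List (ℤˣ × G)) := by
  intro v w h
  obtain ⟨x, rfl⟩ := vt_surj v
  obtain ⟨y, rfl⟩ := vt_surj w
  rw [LV_vt, LV_vt, List.reverse_inj] at h
  have h1 : ((nw x).head * (nw y).head⁻¹) • nw y = nw x := by
    apply NormalWord.ext
    · rw [group_smul_head]; group
    · rw [group_smul_toList, h]
  have h2 := prod_group_smul φ ((nw x).head * (nw y).head⁻¹) (nw y)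
  rw [h1, prod_nw, prod_nw] at h2
  rw [eq_comm, vt_eq]
  clear h1 h
  generalize (nw x).head * (nw y).head⁻¹ = c at h2
  refine ⟨c⁻¹, ?_⟩
  rw [← inv_inv x, h2, mul_inv_rev, inv_inv, map_inv]

theorem LV_take (v : VT A B φ) (m : ℕ) : ∃ w : VT A B φ, LV w = (LV v).take m := by
  obtain ⟨x, rfl⟩ := vt_surj v
  rw [LV_vt]
  let w : NormalWord (tp A B) :=
    { head := 1
      toList := (nw x).toList.drop ((nw x).toList.length - m)
      chain := (nw x).chain.drop _
      mem_set := fun u g h => (nw x).mem_set u g (List.mem_of_mem_drop h) }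
  refine ⟨vt (w.prod φ)⁻¹, ?_⟩
  rw [LV_vt, nw_prod, List.take_reverse]

noncomputable instance : GMet (VT A B φ) where
  d v w := D (LV v) (LV w)
  d_self v := D_self _
  eq_of_d v w h := LV_inj (eq_of_D _ _ h)
  symm v w := D_symm _ _
  tri u v w := D_tri _ _ _
  geo v w k hk := by
    obtain ⟨z, ⟨z', rfl⟩, h1, h2⟩ := D_geo (Set.range (LV : VT A B φ → List (ℤˣ × G)))
      (by rintro _ ⟨v, rfl⟩ m; exact LV_take v m) (LV v) (LV w) ⟨v, rfl⟩ ⟨w, rfl⟩ k hk
    exact ⟨z', h1, h2⟩

theorem d_def (v w : VT A B φ) : d v w = D (LV v) (LV w) := rfl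

theorem hypT : Hyp (VT A B φ) 0 := by
  intro x y z w
  have := D_hyp (LV x) (LV y) (LV z) (LV w)
  simp only [d_def]
  omega

theorem d_mul_t (x : HNNExtension G A B φ) (u : ℤˣ) :
    d (vt x : VT A B φ) (vt (x * t ^ (u : ℤ))) = 1 := by
  rw [d_def, LV_vt, LV_vt, nw_mul_t]
  unfold unitsSMul
  split_ifs with h
  · generalize nw x = w at h
    cases w using consRecOn with
    | ofGroup => simp [Cancels] at h
    | cons g u' w h1 h2 ih =>
      simp only [unitsSMulWithCancel, consRecOn_cons, group_smul_toList, cons_toList,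
        List.reverse_cons]
      rw [D_symm]
      exact D_append _ _
  · simp only [cons_toList, group_smul_toList, List.reverse_cons]
    exact D_append _ _

theorem d_one_iff (v w : VT A B φ) : d v w = 1 ↔
    ∃ (x : HNNExtension G A B φ) (u : ℤˣ), v = vt x ∧ w = vt (x * t ^ (u : ℤ)) := by
  have key : ∀ v w : VT A B φ, (∃ a, LV w = LV v ++ [a]) →
      ∃ (x : HNNExtension G A B φ) (u : ℤˣ), v = vt x ∧ w = vt (x * t ^ (u : ℤ)) := by
    intro v w h
    obtain ⟨⟨u, g⟩, h⟩ := h
    obtain ⟨x, rfl⟩ := vt_surj v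
    obtain ⟨y, rfl⟩ := vt_surj w
    rw [LV_vt, LV_vt] at h
    have h1 : (nw y).toList = (u, g) :: (nw x).toList := by
      have := congrArg List.reverse h
      simpa using this
    have h2 := prod_nw x
    have h3 := prod_nw y
    unfold ReducedWord.prod at h2 h3
    rw [h1, List.map_cons, List.prod_cons] at h3
    refine ⟨x * of ((nw x).head * g⁻¹), -u, (vt_mul_of _ _).symm, ?_⟩
    rw [vt_eq]
    have h4 : (List.map (fun x : ℤˣ × G => (t : HNNExtension G A B φ) ^ (x.1 : ℤ) * of x.2)
        (nw x).toList).prod = of ((nw x).head)⁻¹ * x⁻¹ := by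
      rw [← h2, map_inv]; group
    rw [h4] at h3
    clear h4 h2 h1 h
    generalize (nw x).head = hx at h3
    generalize (nw y).head = hy at h3
    refine ⟨hy, ?_⟩
    have h5 : y = (y⁻¹)⁻¹ := (inv_inv y).symm
    rw [← h3] at h5
    rw [h5]
    simp only [map_mul, map_inv, mul_inv_rev, inv_inv, Units.val_neg, zpow_neg]
    group
  constructor
  · intro h
    rw [d_def] at h
    rcases D_one _ _ h with h | h
    · obtain ⟨x, u, h1, h2⟩ := key w v h
      refine ⟨x * t ^ (u : ℤ), -u, h2, ?_⟩
      rw [h1, mul_assoc, ← zpow_add, Units.val_neg, add_neg_cancel, zpow_zero, mul_one]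
    · exact key v w h
  · rintro ⟨x, u, rfl, rfl⟩
    exact d_mul_t x u

theorem d_smul_le (g : HNNExtension G A B φ) :
    ∀ (n : ℕ) (v w : VT A B φ), d v w = n → d (g • v) (g • w) ≤ n := by
  intro n
  induction n with
  | zero => intro v w h; rw [eq_of_d v w h, d_self]
  | succ n ih =>
    intro v w h
    obtain ⟨z, hz1, hz2⟩ := geo v w 1 (by omega)
    have h1 : d (g • v) (g • z) = 1 := by
      obtain ⟨x, u, rfl, rfl⟩ := (d_one_iff _ _).1 hz1
      rw [d_one_iff]
      exact ⟨g * x, u, rfl, by rw [smul_vt, mul_assoc]⟩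
    have h2 := ih z w (by omega)
    have := tri (g • v) (g • z) (g • w)
    omega

theorem d_smul (g : HNNExtension G A B φ) (v w : VT A B φ) : d (g • v) (g • w) = d v w := by
  apply le_antisymm (d_smul_le g _ v w rfl)
  have := d_smul_le g⁻¹ _ (g • v) (g • w) rfl
  rwa [inv_smul_smul, inv_smul_smul] at this

/-! ### exponent homomorphism -/

variable (A B φ) in
/-- the exponent of `t` -/
noncomputable def ex : HNNExtension G A B φ →* Multiplicative ℤ :=
  HNNExtension.lift 1 (Multiplicative.ofAdd 1) (by intro a; simp)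

theorem ex_of (a : G) : ex A B φ (of a) = 1 := by
  unfold ex; rw [lift_of]; rfl

theorem ex_t : ex A B φ t = Multiplicative.ofAdd 1 := by
  unfold ex; rw [lift_t]

/-- no inversions -/
theorem no_inv (g : HNNExtension G A B φ) (v : VT A B φ) (h : d v (g • v) = 1) :
    g • g • v ≠ v := by
  intro h2
  obtain ⟨x, u, h3, h4⟩ := (d_one_iff _ _).1 h
  rw [h3, smul_vt, smul_vt, eq_comm, vt_eq] at h2
  obtain ⟨a, ha⟩ := h2
  rw [h3, smul_vt, vt_eq] at h4
  obtain ⟨b, hb⟩ := h4
  have e1 := congrArg (ex A B φ) ha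
  have e2 := congrArg (ex A B φ) hb
  simp only [map_mul, ex_of, ex_t, map_zpow, mul_one] at e1 e2
  have f1 := congrArg Multiplicative.toAdd e1
  have f2 := congrArg Multiplicative.toAdd e2
  simp only [toAdd_mul, toAdd_zpow, toAdd_ofAdd, smul_eq_mul, mul_one] at f1 f2
  rcases Int.units_eq_one_or u with rfl | rfl
  · simp at f2; omega
  · simp at f2; omega

/-- Britton -/
theorem britton (u : ℤˣ) (c : G) (a : G)
    (h : of c * (t : HNNExtension G A B φ) ^ (u : ℤ) = t ^ (u : ℤ) * of a) :
    c ∈ toSubgroup A B (-u) := by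
  by_contra hc
  let w : ReducedWord G A B :=
    { head := 1
      toList := [(-u, c), (u, 1)]
      chain := by
        rw [List.isChain_pair]
        intro hc'
        exact absurd hc' hc }
  have := ReducedWord.toList_eq_nil_of_mem_of_range φ w ⟨a, by
    simp only [ReducedWord.prod, w, List.map_cons, List.map_nil, List.prod_cons, List.prod_nil,
      map_one, mul_one, one_mul]
    rw [mul_assoc, h, ← mul_assoc, ← zpow_add]
    simp⟩
  simp [w] at this

theorem of_mul_t_zpow (u : ℤˣ) (c : G) (hc : c ∈ toSubgroup A B (-u)) :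
    ∃ a : G, of c * (t : HNNExtension G A B φ) ^ (u : ℤ) = t ^ (u : ℤ) * of a := by
  rcases Int.units_eq_one_or u with rfl | rfl
  · refine ⟨φ.symm ⟨c, hc⟩, ?_⟩
    have := of_mul_t (φ := φ) ⟨c, hc⟩
    simpa using this
  · have hc' : c ∈ A := by simpa using hc
    refine ⟨φ ⟨c, hc'⟩, ?_⟩
    have := of_mul_inv_t (φ := φ) ⟨c, hc'⟩
    simpa using this

/-- the stabilizer of a vertex -/
theorem fix_vt {g x : HNNExtension G A B φ} (h : g • (vt x : VT A B φ) = vt x) :
    ∃ a : G, g = x * of a * x⁻¹ := by
  rw [smul_vt, eq_comm, vt_eq] at h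
  obtain ⟨a, ha⟩ := h
  exact ⟨a, by rw [← ha]; group⟩

/-- in a `0`-hyperbolic space: points between fixed points are fixed -/
theorem fix_between {V K : Type} [GMet V] [Group K] [MulAction K V]
    (hi : ∀ (g : K) (x y : V), d (g • x) (g • y) = d x y) (hyp : Hyp V 0) {g : K} {x z y : V}
    (hz : Bt x z y) (hx : g • x = x) (hy : g • y = y) : g • z = z := by
  have h1 := hyp z (g • z) x y
  have h2 := hi g x z
  have h3 := hi g z y
  rw [hx] at h2
  rw [hy] at h3
  unfold Bt at hz
  rw [GMet.symm z x, GMet.symm (g • z) x] at h1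
  symm
  apply eq_of_d
  omega

section malnormal
variable (hA : ∀ g a : G, a ∈ A → a ≠ 1 → g * a * g⁻¹ ∈ A → g ∈ A)
  (hB : ∀ g b : G, b ∈ B → b ≠ 1 → g * b * g⁻¹ ∈ B → g ∈ B)
  (hAB : ∀ g a : G, a ∈ A → g * a * g⁻¹ ∈ B → a = 1)
include hA hB hAB

theorem mal (u u' : ℤˣ) (c g : G) (hc : c ∈ toSubgroup A B u) (hc1 : c ≠ 1)
    (hg : g * c * g⁻¹ ∈ toSubgroup A B u') : u = u' ∧ g ∈ toSubgroup A B u := by
  rcases Int.units_eq_one_or u with rfl | rfl <;> rcases Int.units_eq_one_or u' with rfl | rfl
  · exact ⟨rfl, hA g c hc hc1 hg⟩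
  · exact absurd (hAB g c hc hg) hc1
  · exfalso
    have h1 := hAB g⁻¹ (g * c * g⁻¹) hg (by
      have : g⁻¹ * (g * c * g⁻¹) * g⁻¹⁻¹ = c := by group
      rw [this]; exact hc)
    apply hc1
    have : c = g⁻¹ * (g * c * g⁻¹) * g := by group
    rw [this, h1]; group
  · exact ⟨rfl, hB g c hc hc1 hg⟩

theorem two_fix (g : HNNExtension G A B φ) (v w : VT A B φ) (hg : g ≠ 1) (hv : g • v = v)
    (hw : g • w = w) : d v w ≤ 1 := by
  by_contra hd
  -- points v = v0, v1, v2
  obtain ⟨v1, hb1, hd1⟩ := exists_bt v w (k := 1) (by omega)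
  have hd1' : d v1 w = d v w - 1 := by unfold Bt at hb1; omega
  obtain ⟨v2, hb2, hd2⟩ := exists_bt v1 w (k := 1) (by omega)
  have hv1 := fix_between d_smul hypT hb1 hv hw
  have hv2 := fix_between d_smul hypT hb2 hv1 hw
  have hne : v ≠ v2 := by
    rintro rfl
    unfold Bt at hb2
    omega
  rw [GMet.symm] at hd1
  obtain ⟨x, u, e1, e2⟩ := (d_one_iff _ _).1 hd1
  obtain ⟨y, u', e3, e4⟩ := (d_one_iff _ _).1 hd2
  rw [e1, vt_eq] at e3
  obtain ⟨b, rfl⟩ := e3
  rw [e1] at hv1
  obtain ⟨h, rfl⟩ := fix_vt hv1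
  rw [e2, smul_vt, eq_comm, vt_eq] at hv
  obtain ⟨a1, ha1⟩ := hv
  rw [e4, smul_vt, eq_comm, vt_eq] at hv2
  obtain ⟨a2, ha2⟩ := hv2
  have k1 : h ∈ toSubgroup A B (-u) := by
    apply britton (φ := φ) u h a1
    have h1 : x * (of h * t ^ (u : ℤ)) = x * (t ^ (u : ℤ) * of a1) := by
      rw [← mul_assoc x (t ^ (u : ℤ)), ← ha1]; group
    exact mul_left_cancel h1
  have k2 : b⁻¹ * h * b⁻¹⁻¹ ∈ toSubgroup A B (-u') := by
    apply britton (φ := φ) u' _ a2
    have h1 : x * of b * (of (b⁻¹ * h * b⁻¹⁻¹) * t ^ (u' : ℤ)) =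
        x * of b * (t ^ (u' : ℤ) * of a2) := by
      rw [← mul_assoc (x * of b) (t ^ (u' : ℤ)), ← ha2]
      simp only [map_mul, map_inv]
      group
    exact mul_left_cancel h1
  have hh : h ≠ 1 := by
    rintro rfl
    apply hg
    simp
  obtain ⟨k3, k4⟩ := mal hA hB hAB (-u) (-u') h b⁻¹ k1 hh k2
  have k5 : u = u' := neg_injective k3
  subst k5
  apply hne
  rw [e2, e4, vt_eq]
  obtain ⟨c, hc⟩ := of_mul_t_zpow (φ := φ) u b (by simpa using inv_mem k4)
  exact ⟨c, by rw [mul_assoc, hc]; group⟩

end malnormal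

end tree

end HNNT

open HNNT HNNExtension

/-- BLOCK L2 -/
theorem hnnTree (hT : TreeGoodStmt) : HNNTreeStmt := by
  intro G _ A B φ p hp hp3 hexp hcen hA hB hAB
  refine ⟨VT A B φ, inferInstance, inferInstance, vt 1, ?_, ?_, ?_⟩
  · apply hT (HNNExtension G A B φ) (VT A B φ) p hp hp3 ⟨vt 1⟩ d_smul hypT
      (fun x y z => D_even _ _ _) no_inv (two_fix hA hB hAB)
    · intro g v hv
      obtain ⟨x, rfl⟩ := vt_surj v
      obtain ⟨a, rfl⟩ := fix_vt hv
      rw [conj_pow, ← map_pow, hexp]
      simp
    · intro g h v hg hgv hhv hgh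
      obtain ⟨x, rfl⟩ := vt_surj v
      obtain ⟨a, rfl⟩ := fix_vt hgv
      obtain ⟨b, rfl⟩ := fix_vt hhv
      have ha : a ≠ 1 := by
        rintro rfl
        apply hg
        simp
      have hab : a * b = b * a := by
        apply of_injective (φ := φ)
        rw [map_mul, map_mul]
        have h1 : x * (of a * of b) * x⁻¹ = x * (of b * of a) * x⁻¹ := by
          calc x * (of a * of b) * x⁻¹ = x * of a * x⁻¹ * (x * of b * x⁻¹) := by group
            _ = x * of b * x⁻¹ * (x * of a * x⁻¹) := hgh
            _ = _ := by group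
        exact mul_left_cancel (mul_right_cancel h1)
      obtain ⟨n, hn⟩ := Subgroup.mem_zpowers_iff.1 (hcen a b ha hab)
      rw [Subgroup.mem_zpowers_iff]
      exact ⟨n, by rw [conj_zpow, ← map_zpow, hn]⟩
  · intro g
    rw [smul_vt, mul_one, eq_comm, vt_eq]
    exact ⟨g, by rw [one_mul]⟩
  · have := d_mul_t (A := A) (B := B) (φ := φ) 1 1
    rw [smul_vt, mul_one]
    simp only [Units.val_one, zpow_one, one_mul] at this
    omega

end FrobP
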